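import Pool.Agent.K1H34.HYC.Stm

/-!
# Project HYC, piece NAIVE: the first round, which creates repeated labels
-/

set_option autoImplicit false
open Classical Finset

namespace Pool.Agent.K1H59.HYC

open Pool.Agent.K1H34.HYC

theorem asym (K : ℝ) (hK : 0 < K) (n : ℕ) :
    Filter.Tendsto (fun D : ℕ => (D : ℝ) ^ n * Real.exp (-(D : ℝ) / K)) Filter.atTop (nhds 0) := by
  have h1 := Real.tendsto_pow_mul_exp_neg_atTop_nhds_zero n
  have h2 : Filter.Tendsto (fun D : ℕ => (D : ℝ) / K) Filter.atTop Filter.atTop :=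
    tendsto_natCast_atTop_atTop.atTop_div_const hK
  have h3 := (h1.comp h2).const_mul (K ^ n)
  simp only [mul_zero] at h3
  refine h3.congr fun D => ?_
  simp only [Function.comp]
  rw [div_pow, neg_div]
  field_simp

/-- the asymptotic inequalities -/
theorem large (a : ℕ) : ∃ D3 : ℕ, ∀ D : ℕ, D3 ≤ D →
    ((D : ℝ) + D ^ 2) * Real.exp (-(D : ℝ) / 2 ^ (3 * a + 45)) +
      D * Real.exp (-(D : ℝ) / 2 ^ (5 * a + 60)) ≤ 1 / 2 ^ (4 * a + 49) := by
  have h1 := asym (2 ^ (3 * a + 45)) (by positivity) 1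
  have h2 := asym (2 ^ (3 * a + 45)) (by positivity) 2
  have h3 := asym (2 ^ (5 * a + 60)) (by positivity) 1
  have h4 := (h1.add h2).add h3
  simp only [add_zero] at h4
  have h5 : (0 : ℝ) < 1 / 2 ^ (4 * a + 49) := by positivity
  obtain ⟨D3, hD3⟩ := Filter.eventually_atTop.1 (h4.eventually (gt_mem_nhds h5))
  refine ⟨D3, fun D hD => ?_⟩
  have h6 := hD3 D hD
  simp only [pow_one] at h6
  linarith

/-- labels which occur twice -/
theorem card_rep {X : Type} (B : Finset X) (f : X → ℕ) (U : Finset ℕ)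
    (hU : ∀ l ∈ U, ∃ x ∈ B, ∃ y ∈ B, x ≠ y ∧ f x = l ∧ f y = l) :
    (B.image f).card + U.card ≤ B.card := by
  rw [Finset.card_eq_sum_card_image f B]
  have h1 : U ⊆ B.image f := by
    intro l hl
    obtain ⟨x, hx, -, -, -, hfx, -⟩ := hU l hl
    exact mem_image.2 ⟨x, hx, hfx⟩
  have h2 : U.card = ∑ b ∈ B.image f, if b ∈ U then 1 else 0 := by
    rw [Finset.sum_ite_mem, inter_eq_right.2 h1, sum_const, smul_eq_mul, mul_one]
  rw [h2, card_eq_sum_ones, ← sum_add_distrib]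
  refine sum_le_sum fun b hb => ?_
  obtain ⟨x, hx, hfx⟩ := mem_image.1 hb
  by_cases hbU : b ∈ U
  · rw [if_pos hbU]
    obtain ⟨x, hx, y, hy, hxy, hfx, hfy⟩ := hU b hbU
    exact Finset.one_lt_card.2 ⟨x, mem_filter.2 ⟨hx, hfx⟩, y, mem_filter.2 ⟨hy, hfy⟩, hxy⟩
  · rw [if_neg hbU, add_zero]
    exact Finset.card_pos.2 ⟨x, mem_filter.2 ⟨hx, hfx⟩⟩

theorem one_sub_pow_ge {w : ℝ} (h0 : 0 ≤ w) (h1 : w ≤ 1 / 2) (n : ℕ) :
    Real.exp (-(2 * w * n)) ≤ (1 - w) ^ n := by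
  have h2 : Real.exp (-(2 * w)) ≤ 1 - w := by
    have h3 : 0 < 1 + 2 * w := by linarith
    have h4 := Real.add_one_le_exp (2 * w)
    rw [Real.exp_neg]
    have h5 : (Real.exp (2 * w))⁻¹ ≤ (1 + 2 * w)⁻¹ := inv_anti₀ h3 (by linarith)
    refine h5.trans ?_
    rw [inv_le_iff_one_le_mul₀ h3]
    nlinarith
  calc Real.exp (-(2 * w * n)) = Real.exp (-(2 * w)) ^ n := by
        rw [← Real.exp_nat_mul]
        congr 1
        ring
    _ ≤ (1 - w) ^ n := pow_le_pow_left₀ (Real.exp_pos _).le h2 n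

theorem sum_biUnion_le' {α ι : Type} [DecidableEq α] (s : Finset ι) (t : ι → Finset α) (f : α → ℝ)
    (hf : ∀ a, 0 ≤ f a) : ∑ a ∈ s.biUnion t, f a ≤ ∑ i ∈ s, ∑ a ∈ t i, f a := by
  induction s using Finset.induction_on with
  | empty => simp
  | insert i s hi ih =>
    rw [biUnion_insert, sum_insert hi]
    have h1 := Finset.sum_union_inter (s₁ := t i) (s₂ := s.biUnion t) (f := f)
    have h2 : 0 ≤ ∑ a ∈ t i ∩ s.biUnion t, f a := sum_nonneg fun a _ => hf a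
    linarith

theorem mem_two {X : Type} {N : ℕ} (Y : Finset X) (E : Finset (X × X)) (ω : X → Fin N)
    (l : Fin N) : l ∈ two Y E ω ↔
      ∃ z ∈ E, ω z.1 = l ∧ ω z.2 = l ∧ ∀ y ∈ Y, ω y = l → y = z.1 ∨ y = z.2 := by
  unfold two
  exact mem_filter.trans (and_iff_right (mem_univ _))

theorem mem_tri {X : Type} {N : ℕ} (G : SimpleGraph X) (A : Finset X) (E : Finset (X × X))
    (ω : X → Fin N) (l : Fin N) : l ∈ tri G A E ω ↔
      ∃ z ∈ E, ∃ u ∈ A, G.Adj z.1 u ∧ ω z.1 = l ∧ ω z.2 = l ∧ ω u = l := by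
  unfold tri
  exact mem_filter.trans (and_iff_right (mem_univ _))

theorem two_congr {X : Type} {N : ℕ} (Y : Finset X) (E : Finset (X × X)) (ω ω' : X → Fin N)
    (hE : ∀ z ∈ E, z.1 ∈ Y ∧ z.2 ∈ Y) (h : ∀ x ∈ Y, ω x = ω' x) : two Y E ω = two Y E ω' := by
  ext l
  rw [mem_two, mem_two]
  constructor
  · rintro ⟨z, hz, e1, e2, e3⟩
    obtain ⟨q1, q2⟩ := hE z hz
    exact ⟨z, hz, by rw [← h _ q1, e1], by rw [← h _ q2, e2],
      fun y hy hyl => e3 y hy (by rw [h y hy, hyl])⟩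
  · rintro ⟨z, hz, e1, e2, e3⟩
    obtain ⟨q1, q2⟩ := hE z hz
    exact ⟨z, hz, by rw [h _ q1, e1], by rw [h _ q2, e2],
      fun y hy hyl => e3 y hy (by rw [← h y hy, hyl])⟩

/-- the pairs with a label in `Fin (D + 1)` -/
noncomputable def Pp {X : Type} [Fintype X] (A : Finset X) (D : ℕ) (P : Finset (X × ℕ)) :
    Finset (X × Fin (D + 1)) :=
  univ.filter (fun z : X × Fin (D + 1) => z.1 ∈ A ∧ (z.1, (z.2 : ℕ)) ∈ P)

theorem mem_Pp {X : Type} [Fintype X] (A : Finset X) (D : ℕ) (P : Finset (X × ℕ))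
    (z : X × Fin (D + 1)) : z ∈ Pp A D P ↔ z.1 ∈ A ∧ (z.1, (z.2 : ℕ)) ∈ P := by
  unfold Pp
  exact mem_filter.trans (and_iff_right (mem_univ _))

theorem Pp_card {X : Type} [Fintype X] (A : Finset X) (D : ℕ) (P : Finset (X × ℕ)) :
    (Pp A D P).card ≤ (P.filter (fun z => z.1 ∈ A)).card := by
  refine Finset.card_le_card_of_injOn (fun z : X × Fin (D + 1) => (z.1, (z.2 : ℕ))) ?_ ?_
  · intro z hz
    have hz' := (mem_Pp A D P z).1 (mem_coe.1 hz)
    exact mem_coe.2 (mem_filter.2 ⟨hz'.2, hz'.1⟩)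
  · intro z _ z' _ hzz
    simp only [Prod.mk.injEq] at hzz
    exact Prod.ext hzz.1 (Fin.ext hzz.2)

theorem Pp_row {X : Type} [Fintype X] (A : Finset X) (D : ℕ) (P : Finset (X × ℕ)) (x : X) :
    (((Pp A D P).filter (fun z => z.1 = x)).card : ℝ) ≤ row P x := by
  unfold row
  have : ((Pp A D P).filter (fun z => z.1 = x)).card ≤ (P.filter (fun z => z.1 = x)).card := by
    refine Finset.card_le_card_of_injOn (fun z : X × Fin (D + 1) => (z.1, (z.2 : ℕ))) ?_ ?_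
    · intro z hz
      have hz' := mem_filter.1 (mem_coe.1 hz)
      have hz'' := (mem_Pp A D P z).1 hz'.1
      exact mem_coe.2 (mem_filter.2 ⟨hz''.2, hz'.2⟩)
    · intro z _ z' _ hzz
      simp only [Prod.mk.injEq] at hzz
      exact Prod.ext hzz.1 (Fin.ext hzz.2)
  exact_mod_cast this

theorem tup' (hTUP : S_TUP) {α X : Type} (pr : α → X) (P : Finset α) (x : X) (r : ℕ) (t : ℝ)
    (hr : 1 ≤ r) (ht : 0 ≤ t) (h : 6 * (P.card : ℝ) * t ≤ r) :
    ∑ τ ∈ (P.powersetCard (r + 1)).filter (fun τ => ∃ z ∈ τ, pr z = x), t ^ τ.card ≤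
      ((P.filter (fun z => pr z = x)).card : ℝ) * t * (1 / 2) ^ r := by
  have h1 := hTUP α P (P.filter (fun z => pr z = x)) r t hr ht (filter_subset _ _) h
  refine le_trans (le_of_eq (sum_congr ?_ fun _ _ => rfl)) h1
  refine filter_congr fun τ hτ => ?_
  have hsub := (mem_powersetCard.1 hτ).1
  constructor
  · rintro ⟨z, hz, hzx⟩
    exact ⟨z, hz, mem_filter.2 ⟨hsub hz, hzx⟩⟩
  · rintro ⟨z, hz, hzx⟩
    exact ⟨z, hz, (mem_filter.1 hzx).2⟩

theorem first_sum (hTUP : S_TUP) {X O : Type} [Fintype X] [Fintype O] (a D : ℕ) (A : Finset X)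
    (P : O → Finset (X × ℕ)) (r : O → ℕ) (t : ℝ) (ht0 : 0 ≤ t) (ht2 : t ≤ 2 / ((D + 1 : ℕ) : ℝ))
    (h4 : ∀ o, 1 ≤ r o) (h5 : ∀ o, 12 * ((P o).filter (fun z => z.1 ∈ A)).card ≤ D * r o)
    (x : X) (h6 : ∑ o, (row (P o) x : ℝ) * (1 / 2) ^ (r o) ≤ D / 2 ^ (4 * a + 50)) :
    ∑ τ ∈ (univ.biUnion (fun o => (Pp A D (P o)).powersetCard (r o + 1))).filter
      (fun τ => ∃ z ∈ τ, z.1 = x), t ^ τ.card ≤ 1 / 2 ^ (4 * a + 49) := by
  have hNr : (0 : ℝ) < ((D + 1 : ℕ) : ℝ) := by positivity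
  have hDN : (D : ℝ) ≤ ((D + 1 : ℕ) : ℝ) := by push_cast; linarith
  rw [filter_biUnion]
  refine (sum_biUnion_le' _ _ _ (fun _ => pow_nonneg ht0 _)).trans ?_
  have hs2 : ∀ o, ∑ τ ∈ ((Pp A D (P o)).powersetCard (r o + 1)).filter
      (fun τ => ∃ z ∈ τ, z.1 = x), t ^ τ.card ≤
      2 / ((D + 1 : ℕ) : ℝ) * ((row (P o) x : ℝ) * (1 / 2) ^ (r o)) := by
    intro o
    have hc : 6 * ((Pp A D (P o)).card : ℝ) * t ≤ r o := by
      have c1 : (12 * (Pp A D (P o)).card : ℝ) ≤ D * r o := by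
        have := (Nat.mul_le_mul_left 12 (Pp_card A D (P o))).trans (h5 o)
        exact_mod_cast this
      have c2 : 6 * ((Pp A D (P o)).card : ℝ) * t ≤
          6 * ((Pp A D (P o)).card : ℝ) * (2 / ((D + 1 : ℕ) : ℝ)) :=
        mul_le_mul_of_nonneg_left ht2 (by positivity)
      refine c2.trans ?_
      have c3 : 6 * ((Pp A D (P o)).card : ℝ) * (2 / ((D + 1 : ℕ) : ℝ)) =
          12 * (Pp A D (P o)).card / ((D + 1 : ℕ) : ℝ) := by ring
      rw [c3, div_le_iff₀ hNr]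
      have c5 : (0 : ℝ) ≤ r o := Nat.cast_nonneg _
      nlinarith
    refine (tup' hTUP Prod.fst (Pp A D (P o)) x (r o) t (h4 o) ht0 hc).trans ?_
    have c6 : (0 : ℝ) ≤ (1 / 2) ^ (r o) := by positivity
    have c7 : (0 : ℝ) ≤ row (P o) x := Nat.cast_nonneg _
    calc (((Pp A D (P o)).filter (fun z => z.1 = x)).card : ℝ) * t * (1 / 2) ^ (r o)
        ≤ (row (P o) x : ℝ) * (2 / ((D + 1 : ℕ) : ℝ)) * (1 / 2) ^ (r o) := by
          refine mul_le_mul_of_nonneg_right ?_ c6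
          exact mul_le_mul (Pp_row A D (P o) x) ht2 ht0 c7
      _ = 2 / ((D + 1 : ℕ) : ℝ) * ((row (P o) x : ℝ) * (1 / 2) ^ (r o)) := by ring
  refine (sum_le_sum fun o _ => hs2 o).trans ?_
  rw [← mul_sum]
  refine (mul_le_mul_of_nonneg_left h6 (by positivity)).trans ?_
  have e : (2 : ℝ) ^ (4 * a + 50) = 2 * 2 ^ (4 * a + 49) := by
    rw [show 4 * a + 50 = 4 * a + 49 + 1 by ring, pow_succ]
    ring
  rw [e]
  have hp : (0 : ℝ) < 2 ^ (4 * a + 49) := by positivity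
  rw [div_mul_div_comm, div_le_div_iff₀ (by positivity) hp]
  nlinarith

theorem second_sum {X : Type} [Fintype X] (D : ℕ) (G : SimpleGraph X)
    (h1 : ∀ x, dg G univ x ≤ D) (Sst : Finset X) (Tv : X → Finset (Finset (X × Fin (D + 1))))
    (t E : ℝ) (ht0 : 0 ≤ t) (hE : 0 ≤ E)
    (hTv1 : ∀ v, ∀ τ ∈ Tv v, τ.Nonempty ∧ ∀ z ∈ τ, G.Adj v z.1 ∨ ∃ y, G.Adj v y ∧ G.Adj y z.1)
    (hTv2 : ∀ v, ∑ τ ∈ Tv v, t ^ τ.card ≤ E) (x : X) :
    ∑ τ ∈ (Sst.biUnion Tv).filter (fun τ => ∃ z ∈ τ, z.1 = x), t ^ τ.card ≤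
      ((D : ℝ) + D ^ 2) * E := by
  rw [filter_biUnion]
  refine (sum_biUnion_le' _ _ _ (fun _ => pow_nonneg ht0 _)).trans ?_
  -- the vertices v at distance at most two
  set Nx : Finset X := univ.filter (fun y => G.Adj x y) with hNx
  set V2 : Finset X := Nx ∪ Nx.biUnion (fun y => univ.filter (fun v => G.Adj y v)) with hV2
  have hzero : ∀ v ∈ Sst, v ∉ V2 →
      ∑ τ ∈ (Tv v).filter (fun τ => ∃ z ∈ τ, z.1 = x), t ^ τ.card = 0 := by
    intro v _ hv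
    have : (Tv v).filter (fun τ => ∃ z ∈ τ, z.1 = x) = ∅ := by
      refine filter_false_of_mem fun τ hτ => ?_
      rintro ⟨z, hz, hzx⟩
      rcases (hTv1 v τ hτ).2 z hz with h | ⟨y, hy1, hy2⟩
      · refine hv (mem_union_left _ (mem_filter.2 ⟨mem_univ _, ?_⟩))
        rw [← hzx]
        exact h.symm
      · refine hv (mem_union_right _ (mem_biUnion.2 ⟨y, mem_filter.2 ⟨mem_univ _, ?_⟩,
          mem_filter.2 ⟨mem_univ _, hy1.symm⟩⟩))
        rw [← hzx]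
        exact hy2.symm
    rw [this, sum_empty]
  have hle : ∀ v, ∑ τ ∈ (Tv v).filter (fun τ => ∃ z ∈ τ, z.1 = x), t ^ τ.card ≤ E := fun v =>
    (sum_le_sum_of_subset_of_nonneg (filter_subset _ _)
      (fun _ _ _ => pow_nonneg ht0 _)).trans (hTv2 v)
  have hsum : ∑ v ∈ Sst, ∑ τ ∈ (Tv v).filter (fun τ => ∃ z ∈ τ, z.1 = x), t ^ τ.card ≤
      ∑ v ∈ V2, E := by
    rw [← sum_filter_add_sum_filter_not Sst (fun v => v ∈ V2)]
    have z0 : ∑ v ∈ Sst.filter (fun v => ¬ v ∈ V2),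
        ∑ τ ∈ (Tv v).filter (fun τ => ∃ z ∈ τ, z.1 = x), t ^ τ.card = 0 :=
      sum_eq_zero fun v hv => hzero v (mem_filter.1 hv).1 (mem_filter.1 hv).2
    rw [z0, add_zero]
    refine (sum_le_sum fun v _ => hle v).trans ?_
    refine sum_le_sum_of_subset_of_nonneg ?_ (fun _ _ _ => hE)
    intro v hv
    exact (mem_filter.1 hv).2
  refine hsum.trans ?_
  rw [sum_const, nsmul_eq_mul]
  refine mul_le_mul_of_nonneg_right ?_ hE
  have hNxc : Nx.card ≤ D := h1 x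
  have hV2c : V2.card ≤ D + D ^ 2 := by
    refine (card_union_le _ _).trans ?_
    have : (Nx.biUnion (fun y => univ.filter (fun v => G.Adj y v))).card ≤ D ^ 2 := by
      refine (card_biUnion_le_card_mul _ _ D (fun y _ => h1 y)).trans ?_
      rw [sq]
      exact Nat.mul_le_mul_right _ hNxc
    omega
  exact_mod_cast hV2c

theorem third_sum {X : Type} [Fintype X] (D : ℕ) (G : SimpleGraph X)
    (h1 : ∀ x, dg G univ x ≤ D) (A : Finset X) (ε : ℝ) (hε : 0 ≤ ε) (x : X) :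
    ∑ _j ∈ univ.filter (fun j => x ∈ A.filter (fun y => G.Adj j y)), ε ≤ D * ε := by
  rw [sum_const, nsmul_eq_mul]
  refine mul_le_mul_of_nonneg_right ?_ hε
  have : (univ.filter (fun j => x ∈ A.filter (fun y => G.Adj j y))).card ≤ D := by
    refine le_trans (card_le_card ?_) (h1 x)
    intro j hj
    have := (mem_filter.1 (mem_filter.1 hj).2).2
    exact mem_filter.2 ⟨mem_univ _, this.symm⟩
  exact_mod_cast this

theorem mem_np {X : Type} [Fintype X] (G : SimpleGraph X) (A : Finset X) (v : X) (z : X × X) :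
    z ∈ np G A v ↔ (z.1 ∈ A ∧ z.2 ∈ A) ∧ G.Adj v z.1 ∧ G.Adj v z.2 ∧ z.1 ≠ z.2 ∧
      ¬ G.Adj z.1 z.2 := by
  unfold np
  exact mem_filter.trans (and_congr_left' mem_product)

theorem np_Y {X : Type} [Fintype X] (G : SimpleGraph X) (A : Finset X) (v : X) :
    ∀ z ∈ np G A v, z.1 ∈ A.filter (fun y => G.Adj v y) ∧ z.2 ∈ A.filter (fun y => G.Adj v y) ∧
      z.1 ≠ z.2 ∧ (z.2, z.1) ∈ np G A v := by
  intro z hz
  obtain ⟨⟨hz1, hz2⟩, hz3, hz4, hz5, hz6⟩ := (mem_np G A v z).1 hz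
  exact ⟨mem_filter.2 ⟨hz1, hz3⟩, mem_filter.2 ⟨hz2, hz4⟩, hz5,
    (mem_np G A v _).2 ⟨⟨hz2, hz1⟩, hz4, hz3, hz5.symm, fun h => hz6 h.symm⟩⟩

/-- comparison of the probabilities -/
theorem prob_cmp (a D n : ℕ) (w : ℝ) (hw : w = 1 / 2 ^ (4 * a + 48)) (hw2 : w ≤ 1 / 2)
    (hn : n * 2 ^ (a + 14) ≤ D) :
    Real.exp (-(D : ℝ) / 2 ^ (5 * a + 59)) ≤
      Real.exp (-(D : ℝ) / 2 ^ (5 * a + 60)) * (1 - w) ^ n := by
  have hw0 : 0 ≤ w := by rw [hw]; positivity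
  have hq := one_sub_pow_ge hw0 hw2 n
  refine le_trans ?_ (mul_le_mul_of_nonneg_left hq (Real.exp_pos _).le)
  rw [← Real.exp_add, Real.exp_le_exp]
  have hYr : (n : ℝ) * 2 ^ (a + 14) ≤ D := by exact_mod_cast hn
  have f60 : (2 : ℝ) ^ (5 * a + 60) = 2 * 2 ^ (5 * a + 59) := by
    rw [show 5 * a + 60 = 5 * a + 59 + 1 by ring, pow_succ]
    ring
  have f61 : (2 : ℝ) ^ (4 * a + 48) * 2 ^ (a + 14) = 8 * 2 ^ (5 * a + 59) := by
    rw [← pow_add, show 4 * a + 48 + (a + 14) = 5 * a + 59 + 1 + 1 + 1 by ring, pow_succ,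
      pow_succ, pow_succ]
    ring
  have hp : (0 : ℝ) < 2 ^ (5 * a + 59) := by positivity
  have hp2 : (0 : ℝ) < 2 ^ (4 * a + 48) := by positivity
  set b : ℝ := 2 ^ (5 * a + 59) with hb
  have hb1 : 2 * w * (n : ℝ) ≤ D / (4 * b) := by
    rw [le_div_iff₀ (by positivity)]
    have e : 2 * w * (n : ℝ) * (4 * b) = (n : ℝ) * 2 ^ (a + 14) := by
      have : 8 * b * w = 2 ^ (a + 14) := by
        rw [← f61, hw]
        field_simp
      calc 2 * w * (n : ℝ) * (4 * b) = n * (8 * b * w) := by ring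
        _ = (n : ℝ) * 2 ^ (a + 14) := by rw [this]
    rw [e]
    exact hYr
  rw [f60, neg_div, neg_div]
  have e1 : (D : ℝ) / b = 4 * (D / (4 * b)) := by field_simp
  have e2 : (D : ℝ) / (2 * b) = 2 * (D / (4 * b)) := by field_simp; norm_num
  have hpos : (0 : ℝ) ≤ D / (4 * b) := by positivity
  rw [e1, e2]
  linarith

theorem card_congr' {α : Type} [Fintype α] (p q : α → Prop) [DecidablePred p] [DecidablePred q]
    (h : ∀ a, p a ↔ q a) : (univ.filter p).card = (univ.filter q).card := by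
  congr 1
  ext a
  simp [h a]

/-- the bad event at `v` -/
def Bad {X : Type} [Fintype X] (G : SimpleGraph X) (A Sst : Finset X) (a D : ℕ) (v : X)
    (ω : X → Fin (D + 1)) : Prop :=
  v ∈ Sst ∧ ((two (A.filter (fun y => G.Adj v y)) (np G A v) ω).card : ℝ) <
      D / 2 ^ (3 * a + 36)

/-- the labelling avoiding all bad events -/
theorem exists_lab (hTUP : S_TUP) (hGLLL : S_GLLL) (hTWO : S_TWO) (hTRI : S_TRI) (a : ℕ) :
    ∃ D0 : ℕ, ∀ D : ℕ, D0 ≤ D → ∀ (X O : Type) [Fintype X] [Fintype O]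
    (G : SimpleGraph X) (A Sst : Finset X) (P : O → Finset (X × ℕ)) (r : O → ℕ),
    (∀ x, dg G univ x ≤ D) → (∀ x, dg G A x * 2 ^ (a + 14) ≤ D) →
    (∀ v ∈ Sst, D ^ 2 ≤ 2 ^ (3 * a + 33) * (np G A v).card) →
    (∀ o, 1 ≤ r o) → (∀ o, 12 * ((P o).filter (fun z => z.1 ∈ A)).card ≤ D * r o) →
    (∀ x, ∑ o, (row (P o) x : ℝ) * (1 / 2) ^ (r o) ≤ D / 2 ^ (4 * a + 50)) →
    10 * 2 ^ (3 * a + 36) ≤ D ∧
    ∃ ω : X → Fin (D + 1), (∀ o, ∀ τ ∈ (Pp A D (P o)).powersetCard (r o + 1),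
      ¬ ∀ z ∈ τ, ω z.1 = z.2) ∧
      (∀ v ∈ Sst, (D : ℝ) / 2 ^ (3 * a + 36) ≤
        ((two (A.filter (fun y => G.Adj v y)) (np G A v) ω).card : ℝ)) ∧
      ∀ v ∈ Sst, ((tri G A (np G A v) ω).card : ℝ) ≤ 2 / 5 * (D / 2 ^ (3 * a + 36)) + 1 := by
  obtain ⟨D1, hD1⟩ := hTWO a
  obtain ⟨D2, hD2⟩ := hTRI a
  obtain ⟨D3, hD3⟩ := large a
  refine ⟨max (max D1 D2) (max D3 (10 * 2 ^ (3 * a + 36))), ?_⟩
  intro D hD X O _ _ G A Sst P r h1 h2 h3 h4 h5 h6
  have hDD1 : D1 ≤ D := (le_max_left _ _).trans ((le_max_left _ _).trans hD)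
  have hDD2 : D2 ≤ D := (le_max_right _ _).trans ((le_max_left _ _).trans hD)
  have hDD3 : D3 ≤ D := (le_max_left _ _).trans ((le_max_right _ _).trans hD)
  have hDD4 : 10 * 2 ^ (3 * a + 36) ≤ D := (le_max_right _ _).trans ((le_max_right _ _).trans hD)
  refine ⟨hDD4, ?_⟩
  have hDpos : 0 < D := lt_of_lt_of_le (by positivity) hDD4
  have hDr : (0 : ℝ) < D := by exact_mod_cast hDpos
  obtain ⟨w, hw⟩ : ∃ w : ℝ, w = 1 / 2 ^ (4 * a + 48) := ⟨_, rfl⟩
  have hw0 : 0 ≤ w := by rw [hw]; positivity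
  have hw4 : w ≤ 1 / 4 := by
    rw [hw]
    apply one_div_le_one_div_of_le (by norm_num)
    calc (4 : ℝ) = 2 ^ 2 := by norm_num
      _ ≤ 2 ^ (4 * a + 48) := pow_le_pow_right₀ (by norm_num) (by omega)
  have hw2 : w ≤ 1 / 2 := by linarith
  have hNr : (0 : ℝ) < ((D + 1 : ℕ) : ℝ) := by positivity
  obtain ⟨t, ht⟩ : ∃ t : ℝ, t = 1 / ((1 - w) * ((D + 1 : ℕ) : ℝ)) := ⟨_, rfl⟩
  have ht0 : 0 ≤ t := by
    rw [ht]
    have : 0 < 1 - w := by linarith
    positivity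
  have ht2 : t ≤ 2 / ((D + 1 : ℕ) : ℝ) := by
    rw [ht, div_le_div_iff₀ (by nlinarith) hNr]
    nlinarith
  choose Tv hTv1 hTv2 hTv3 using fun v => hD2 D hDD2 X G A v w hw0 hw4 h2
  rw [← ht] at hTv2
  obtain ⟨ε, hε⟩ : ∃ ε : ℝ, ε = Real.exp (-(D : ℝ) / 2 ^ (5 * a + 60)) := ⟨_, rfl⟩
  have hε0 : 0 ≤ ε := by rw [hε]; exact (Real.exp_pos _).le
  have hε1 : ε < 1 := by
    rw [hε, Real.exp_lt_one_iff]
    have : (0 : ℝ) < D / 2 ^ (5 * a + 60) := by positivity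
    rw [neg_div]
    linarith
  have key := hGLLL X X (D + 1) w
    (univ.biUnion (fun o => (Pp A D (P o)).powersetCard (r o + 1)) ∪ Sst.biUnion Tv)
    (Bad G A Sst a D) (fun v => A.filter (fun y => G.Adj v y)) (fun _ => ε) (by omega)
    hw0 hw2 ?_ (fun _ => ⟨hε0, hε1⟩) ?_ ?_ ?_
  · obtain ⟨ω, hω1, hω2⟩ := key
    refine ⟨ω, ?_, ?_, ?_⟩
    · intro o τ hτ
      exact hω1 τ (mem_union_left _ (mem_biUnion.2 ⟨o, mem_univ _, hτ⟩))
    · intro v hv
      by_contra hcon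
      exact hω2 v ⟨hv, not_le.1 hcon⟩
    · intro v hv
      exact hTv3 v ω (fun τ hτ => hω1 τ (mem_union_right _ (mem_biUnion.2 ⟨v, hv, hτ⟩)))
  · rintro v ω ω' hωω ⟨hv, hFv⟩
    refine ⟨hv, ?_⟩
    rw [two_congr _ _ ω' ω (fun z hz => ⟨(np_Y G A v z hz).1, (np_Y G A v z hz).2.1⟩)
      (fun x hx => (hωω x hx).symm)]
    exact hFv
  · intro τ hτ
    rcases mem_union.1 hτ with hτ | hτ
    · obtain ⟨o, -, ho⟩ := mem_biUnion.1 hτ
      have := (mem_powersetCard.1 ho).2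
      exact card_pos.1 (by omega)
    · obtain ⟨v, -, hv⟩ := mem_biUnion.1 hτ
      exact (hTv1 v τ hv).1
  · intro v
    by_cases hv : v ∈ Sst
    · have hp := hD1 D hDD1 X (A.filter (fun y => G.Adj v y)) (np G A v) (np_Y G A v) (h2 v)
        (h3 v hv)
      refine le_trans (le_of_eq (congrArg _ (card_congr' _ _ ?_))) (hp.trans ?_)
      · intro ω
        exact and_iff_right hv
      · refine mul_le_mul_of_nonneg_right ?_ (by positivity)
        rw [hε]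
        exact prob_cmp a D _ w hw hw2 (h2 v)
    · have h1w : 0 ≤ 1 - w := by linarith
      refine le_trans (le_of_eq (b := 0) ?_) (by positivity)
      rw [Nat.cast_eq_zero, card_eq_zero, filter_eq_empty_iff]
      rintro ω _ ⟨h, -⟩
      exact hv h
  · intro x
    have f1 := first_sum hTUP a D A P r t ht0 ht2 h4 h5 x (h6 x)
    have f2 := second_sum D G h1 Sst Tv t (Real.exp (-(D : ℝ) / 2 ^ (3 * a + 45))) ht0
      (Real.exp_pos _).le hTv1 hTv2 x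
    have f3 := third_sum D G h1 A ε hε0 x
    have hl := hD3 D hDD3
    rw [← hε] at hl
    have e48 : (2 : ℝ) ^ (4 * a + 49) = 2 ^ (4 * a + 48) * 2 := by
      rw [show 4 * a + 49 = 4 * a + 48 + 1 by ring, pow_succ]
    have e : w = 1 / 2 ^ (4 * a + 49) + 1 / 2 ^ (4 * a + 49) := by
      have hp : (0 : ℝ) < 2 ^ (4 * a + 48) := by positivity
      rw [hw, e48]
      set b : ℝ := 2 ^ (4 * a + 48) with hb
      field_simp
      norm_num
    have hsplit : ∀ (T1 T2 : Finset (Finset (X × Fin (D + 1)))),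
        ∑ τ ∈ (T1 ∪ T2).filter (fun τ => ∃ z ∈ τ, z.1 = x), t ^ τ.card ≤
        ∑ τ ∈ T1.filter (fun τ => ∃ z ∈ τ, z.1 = x), t ^ τ.card +
        ∑ τ ∈ T2.filter (fun τ => ∃ z ∈ τ, z.1 = x), t ^ τ.card := by
      intro T1 T2
      rw [filter_union, ← Finset.sum_union_inter]
      have : 0 ≤ ∑ τ ∈ T1.filter (fun τ => ∃ z ∈ τ, z.1 = x) ∩
          T2.filter (fun τ => ∃ z ∈ τ, z.1 = x), t ^ τ.card :=
        sum_nonneg fun _ _ => pow_nonneg ht0 _
      linarith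
    have hs := hsplit (univ.biUnion (fun o => (Pp A D (P o)).powersetCard (r o + 1)))
      (Sst.biUnion Tv)
    rw [← ht]
    calc _ ≤ _ := add_le_add hs f3
      _ ≤ w := by
        rw [e]
        linarith

theorem t_NAIVE : S_TUP → S_GLLL → S_TWO → S_TRI → S_NAIVE := by
  intro hTUP hGLLL hTWO hTRI a
  obtain ⟨D0, hD0⟩ := exists_lab hTUP hGLLL hTWO hTRI a
  refine ⟨D0, ?_⟩
  intro D hD X O _ _ G A Sst P r h1 h2 h3 h4 h5 h6
  obtain ⟨hDD4, ω, hω1, hω2, hω3⟩ := hD0 D hD X O G A Sst P r h1 h2 h3 h4 h5 h6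
  refine ⟨A.filter (fun y => ∀ u ∈ A, G.Adj y u → ω u ≠ ω y), fun y => (ω y : ℕ),
    filter_subset _ _, ?_, ?_, ?_, ?_⟩
  · intro x _
    exact Nat.lt_succ_iff.1 (ω x).2
  · intro x hx y hy hxy h
    have := (mem_filter.1 hx).2 y (mem_filter.1 hy).1 hxy
    exact this (Fin.ext h.symm)
  · intro o
    by_contra hcon
    rw [not_le] at hcon
    unfold hits at hcon
    obtain ⟨B, hB, hBc⟩ := exists_subset_card_eq (Nat.succ_le_of_lt hcon)
    have hτ : B.image (fun y => (y, ω y)) ∈ (Pp A D (P o)).powersetCard (r o + 1) := by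
      rw [mem_powersetCard]
      constructor
      · intro z hz
        obtain ⟨y, hy, rfl⟩ := mem_image.1 hz
        have hy' := mem_filter.1 (hB hy)
        exact (mem_Pp _ _ _ _).2 ⟨(mem_filter.1 hy'.1).1, hy'.2⟩
      · rw [card_image_of_injective _ (fun y y' h => (Prod.mk.inj h).1), hBc]
    refine hω1 o _ hτ ?_
    intro z hz
    obtain ⟨y, hy, rfl⟩ := mem_image.1 hz
    rfl
  · intro v hv
    have htwo := hω2 v hv
    have htri := hω3 v hv
    set U : Finset (Fin (D + 1)) :=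
      two (A.filter (fun y => G.Adj v y)) (np G A v) ω \ tri G A (np G A v) ω with hU
    have hUc : ((two (A.filter (fun y => G.Adj v y)) (np G A v) ω).card : ℝ) ≤
        U.card + (tri G A (np G A v) ω).card := by
      have := Finset.card_le_card_sdiff_add_card
        (s := two (A.filter (fun y => G.Adj v y)) (np G A v) ω) (t := tri G A (np G A v) ω)
      exact_mod_cast this
    set B : Finset X := (A.filter (fun y => ∀ u ∈ A, G.Adj y u → ω u ≠ ω y)).filter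
      (fun y => G.Adj v y) with hB
    have hrep := card_rep B (fun y => (ω y : ℕ)) (U.image (fun l : Fin (D + 1) => (l : ℕ))) (by
      intro l hl
      obtain ⟨l', hl', rfl⟩ := mem_image.1 hl
      obtain ⟨hl1, hl2⟩ := mem_sdiff.1 hl'
      obtain ⟨z, hz, e1, e2, -⟩ := (mem_two _ _ _ _).1 hl1
      obtain ⟨q1, q2, q3, q4⟩ := np_Y G A v z hz
      have hnot : ∀ z' ∈ np G A v, ω z'.1 = l' → ω z'.2 = l' → ∀ u ∈ A, G.Adj z'.1 u →
          ω u ≠ ω z'.1 := by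
        intro z' hz' c1 c2 u hu hadj heq
        refine hl2 ((mem_tri _ _ _ _ _).2 ⟨z', hz', u, hu, hadj, c1, c2, ?_⟩)
        rw [heq, c1]
      refine ⟨z.1, ?_, z.2, ?_, q3, congrArg _ e1, congrArg _ e2⟩
      · exact mem_filter.2 ⟨mem_filter.2 ⟨(mem_filter.1 q1).1, hnot z hz e1 e2⟩,
          (mem_filter.1 q1).2⟩
      · exact mem_filter.2 ⟨mem_filter.2 ⟨(mem_filter.1 q2).1, hnot (z.2, z.1) q4 e2 e1⟩,
          (mem_filter.1 q2).2⟩)
    rw [card_image_of_injective _ Fin.val_injective] at hrep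
    have hrep' : ((B.image (fun y => (ω y : ℕ))).card : ℝ) + U.card ≤ B.card := by
      exact_mod_cast hrep
    have hdg : dg G (A.filter (fun y => ∀ u ∈ A, G.Adj y u → ω u ≠ ω y)) v = B.card := rfl
    rw [hdg]
    have e37 : (D : ℝ) / 2 ^ (3 * a + 37) = 1 / 2 * (D / 2 ^ (3 * a + 36)) := by
      rw [show 3 * a + 37 = 3 * a + 36 + 1 by ring, pow_succ]
      field_simp
    have hbig : (10 : ℝ) ≤ D / 2 ^ (3 * a + 36) := by
      rw [le_div_iff₀ (by positivity)]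
      exact_mod_cast hDD4
    rw [e37]
    have hgoal : 1 / 2 * ((D : ℝ) / 2 ^ (3 * a + 36)) ≤ U.card := by
      linarith
    linarith

end Pool.Agent.K1H59.HYC
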